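import Pool.Agent.SmH.Basic

/-!
# Every separable partition is cut out by a plane through three of the points
-/

open Function

namespace Pool.Agent.SmH

variable {n : ℕ}

/-- The plane `(u, t)` weakly separates `A` from the rest. -/
def WSep (x : Fin n × Fin 3 → ℝ) (A : Finset (Fin n)) (u : Fin 3 → ℝ) (t : ℝ) : Prop :=
  u ≠ 0 ∧ (∀ i ∈ A, t ≤ ev u x i) ∧ (∀ i, i ∉ A → ev u x i ≤ t)

/-- The points on the plane. -/
noncomputable def tight (x : Fin n × Fin 3 → ℝ) (u : Fin 3 → ℝ) (t : ℝ) : Finset (Fin n) :=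
  Finset.univ.filter (fun i => ev u x i = t)

theorem mem_tight {x : Fin n × Fin 3 → ℝ} {u : Fin 3 → ℝ} {t : ℝ} {i : Fin n} :
    i ∈ tight x u t ↔ ev u x i = t := by
  simp [tight]

theorem ev_add (u v : Fin 3 → ℝ) (x : Fin n × Fin 3 → ℝ) (i : Fin n) :
    ev (u + v) x i = ev u x i + ev v x i := by
  simp only [ev, Pi.add_apply, add_mul, Finset.sum_add_distrib]

theorem ev_smul (a : ℝ) (v : Fin 3 → ℝ) (x : Fin n × Fin 3 → ℝ) (i : Fin n) :
    ev (a • v) x i = a * ev v x i := by
  simp only [ev, Pi.smul_apply, smul_eq_mul, Finset.mul_sum, mul_assoc]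

theorem ev_zero (x : Fin n × Fin 3 → ℝ) (i : Fin n) : ev 0 x i = 0 := by
  simp [ev]

/-- A direction in the pencil of planes through few points. -/
theorem exists_dir (x : Fin n × Fin 3 → ℝ) (u : Fin 3 → ℝ) (t : ℝ) (Z : Finset (Fin n))
    (hZ : Z.card ≤ 2) : ∃ (v : Fin 3 → ℝ) (s : ℝ), (v, s) ≠ (0 : (Fin 3 → ℝ) × ℝ) ∧
      (∀ i ∈ Z, ev v x i = s) ∧ (∑ c, u c * v c) + t * s = 0 := by
  let f : (i : Z) → ((Fin 3 → ℝ) × ℝ) →ₗ[ℝ] ℝ := fun i =>
    { toFun := fun p => ev p.1 x i - p.2
      map_add' := by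
        intro p q
        simp only [Prod.fst_add, Prod.snd_add, ev_add]; ring
      map_smul' := by
        intro a p
        simp only [Prod.smul_fst, Prod.smul_snd, ev_smul, smul_eq_mul, RingHom.id_apply]; ring }
  let g : ((Fin 3 → ℝ) × ℝ) →ₗ[ℝ] ℝ :=
    { toFun := fun p => (∑ c, u c * p.1 c) + t * p.2
      map_add' := by
        intro p q
        simp only [Prod.fst_add, Prod.snd_add, Pi.add_apply, mul_add, Finset.sum_add_distrib]; ring
      map_smul' := by
        intro a p
        simp only [Prod.smul_fst, Prod.smul_snd, Pi.smul_apply, smul_eq_mul, RingHom.id_apply,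
          mul_add, Finset.mul_sum]
        congr 1
        · refine Finset.sum_congr rfl fun c _ => ?_
          ring
        · ring }
  let L : ((Fin 3 → ℝ) × ℝ) →ₗ[ℝ] ((Z → ℝ) × ℝ) := (LinearMap.pi f).prod g
  have hker : LinearMap.ker L ≠ ⊥ := by
    apply LinearMap.ker_ne_bot_of_finrank_lt
    simp only [Module.finrank_prod, Module.finrank_fintype_fun_eq_card, Fintype.card_coe,
      Module.finrank_self, Fintype.card_fin]
    omega
  obtain ⟨p, hp, hp0⟩ := (Submodule.ne_bot_iff _).1 hker
  refine ⟨p.1, p.2, by simpa using hp0, ?_, ?_⟩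
  · intro i hi
    have h1 : (L p).1 ⟨i, hi⟩ = 0 := by
      rw [LinearMap.mem_ker.1 hp]; rfl
    have h2 : ev p.1 x i - p.2 = 0 := h1
    linarith
  · have h1 : (L p).2 = 0 := by
      rw [LinearMap.mem_ker.1 hp]; rfl
    exact h1

theorem pivot (hn : 4 ≤ n) (x : Fin n × Fin 3 → ℝ) (hg : GenPos x) (A : Finset (Fin n))
    (hA : A.Nonempty) (hA' : ∃ i, i ∉ A) (u : Fin 3 → ℝ) (t : ℝ) (h : WSep x A u t)
    (hc : (tight x u t).card ≤ 2) :
    ∃ (u' : Fin 3 → ℝ) (t' : ℝ), WSep x A u' t' ∧ (tight x u t).card < (tight x u' t').card := by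
  classical
  obtain ⟨v0, s0, h0, hz0, ho0⟩ := exists_dir x u t (tight x u t) hc
  -- sign of a point
  let σ : Fin n → ℝ := fun i => if i ∈ A then 1 else -1
  have hσ : ∀ i, σ i * σ i = 1 := by
    intro i
    by_cases hi : i ∈ A <;> simp [σ, hi]
  have hslack : ∀ i, 0 ≤ σ i * (ev u x i - t) := by
    intro i
    by_cases hi : i ∈ A
    · have := h.2.1 i hi
      simp only [σ, hi, if_true]; linarith
    · have := h.2.2 i hi
      simp only [σ, hi, if_false]; linarith
  have hex : ∃ i, ev v0 x i ≠ s0 := by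
    by_contra hh
    push Not at hh
    by_cases hv : v0 = 0
    · obtain ⟨i, hi⟩ := hA
      have := hh i
      rw [hv, ev_zero] at this
      exact h0 (by rw [hv, ← this]; rfl)
    · have := hg v0 s0 hv Finset.univ (fun i _ => hh i)
      simp at this
      omega
  obtain ⟨v, s, hvs, hz, ho, hneg⟩ : ∃ (v : Fin 3 → ℝ) (s : ℝ), (v ≠ 0 ∨ s ≠ 0) ∧
      (∀ i ∈ tight x u t, ev v x i = s) ∧ (∑ c, u c * v c) + t * s = 0 ∧
      ∃ i, σ i * (ev v x i - s) < 0 := by
    obtain ⟨i, hi⟩ := hex
    have h0' : v0 ≠ 0 ∨ s0 ≠ 0 := by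
      by_contra hh
      push Not at hh
      exact h0 (by rw [hh.1, hh.2]; rfl)
    have hne : σ i * (ev v0 x i - s0) ≠ 0 := by
      apply mul_ne_zero
      · intro h1
        have := hσ i
        rw [h1] at this
        simp at this
      · exact sub_ne_zero.2 hi
    rcases lt_or_gt_of_ne hne with hl | hl
    · exact ⟨v0, s0, h0', hz0, ho0, i, hl⟩
    · refine ⟨-v0, -s0, ?_, ?_, ?_, i, ?_⟩
      · rcases h0' with h | h
        · exact Or.inl (neg_ne_zero.2 h)
        · exact Or.inr (neg_ne_zero.2 h)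
      · intro j hj
        have := hz0 j hj
        have e : ev (-v0) x j = - ev v0 x j := by
          have := ev_smul (-1) v0 x j
          simpa using this
        rw [e, this]
      · have : (∑ c, u c * (-v0) c) = - ∑ c, u c * v0 c := by
          simp
        rw [this]; linarith
      · have e : ev (-v0) x i = - ev v0 x i := by
          have := ev_smul (-1) v0 x i
          simpa using this
        rw [e]
        have : σ i * (-ev v0 x i - -s0) = - (σ i * (ev v0 x i - s0)) := by ring
        rw [this]; linarith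
  let N := Finset.univ.filter (fun i => σ i * (ev v x i - s) < 0)
  have hN : N.Nonempty := by
    obtain ⟨i, hi⟩ := hneg
    exact ⟨i, by simpa [N] using hi⟩
  obtain ⟨l, hl, hmin⟩ := Finset.exists_min_image N
    (fun i => σ i * (ev u x i - t) / (-(σ i * (ev v x i - s)))) hN
  have hl' : σ l * (ev v x l - s) < 0 := by simpa [N] using hl
  set τ := σ l * (ev u x l - t) / (-(σ l * (ev v x l - s))) with hτ
  have hτ0 : 0 ≤ τ := div_nonneg (hslack l) (by linarith)
  have hslack' : ∀ i, 0 ≤ σ i * (ev u x i - t) + τ * (σ i * (ev v x i - s)) := by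
    intro i
    by_cases hi : σ i * (ev v x i - s) < 0
    · have h1 := hmin i (by simpa [N] using hi)
      have h2 : τ * (-(σ i * (ev v x i - s))) ≤ σ i * (ev u x i - t) := by
        rw [← le_div_iff₀ (by linarith)]
        exact h1
      linarith
    · have h1 := mul_nonneg hτ0 (not_lt.1 hi)
      have := hslack i
      linarith
  have hev : ∀ i, ev (u + τ • v) x i - (t + τ * s) = (ev u x i - t) + τ * (ev v x i - s) := by
    intro i
    rw [ev_add, ev_smul]; ring
  have hsl : ∀ i, 0 ≤ σ i * (ev (u + τ • v) x i - (t + τ * s)) := by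
    intro i
    rw [hev]
    have := hslack' i
    have e : σ i * (ev u x i - t + τ * (ev v x i - s)) =
      σ i * (ev u x i - t) + τ * (σ i * (ev v x i - s)) := by ring
    rw [e]; exact this
  have hw1 : ∀ i ∈ A, (t + τ * s) ≤ ev (u + τ • v) x i := by
    intro i hi
    have := hsl i
    simp only [σ, hi, if_true] at this
    linarith
  have hw2 : ∀ i, i ∉ A → ev (u + τ • v) x i ≤ (t + τ * s) := by
    intro i hi
    have := hsl i
    simp only [σ, hi, if_false] at this
    linarith
  have hu' : u + τ • v ≠ 0 := by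
    intro h1
    obtain ⟨i, hi⟩ := hA
    obtain ⟨j, hj⟩ := hA'
    have h2 := hw1 i hi
    have h3 := hw2 j hj
    rw [h1, ev_zero] at h2 h3
    have h4 : t = - (τ * s) := by linarith
    have h5 : ∀ c, u c = - (τ * v c) := by
      intro c
      have := congrFun h1 c
      simp only [Pi.add_apply, Pi.smul_apply, smul_eq_mul, Pi.zero_apply] at this
      linarith
    have h6 : τ * ((∑ c, v c * v c) + s * s) = 0 := by
      have e1 : (∑ c, u c * v c) = - (τ * ∑ c, v c * v c) := by
        rw [Finset.mul_sum, ← Finset.sum_neg_distrib]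
        refine Finset.sum_congr rfl fun c _ => ?_
        rw [h5 c]; ring
      rw [e1, h4] at ho
      linarith
    rcases mul_eq_zero.1 h6 with h7 | h7
    · apply h.1
      funext c
      rw [h5 c, h7]; simp
    · have h8 : 0 ≤ ∑ c, v c * v c := Finset.sum_nonneg fun c _ => mul_self_nonneg _
      have h9 : (∑ c, v c * v c) = 0 := by
        have := mul_self_nonneg s
        linarith
      have h10 : s * s = 0 := by linarith
      rcases hvs with h11 | h11
      · apply h11
        funext c
        have := (Finset.sum_eq_zero_iff_of_nonneg (fun c _ => mul_self_nonneg (v c))).1 h9 c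
          (Finset.mem_univ c)
        simpa using this
      · exact h11 (by simpa using h10)
  refine ⟨u + τ • v, t + τ * s, ⟨hu', hw1, hw2⟩, ?_⟩
  have hsub : insert l (tight x u t) ⊆ tight x (u + τ • v) (t + τ * s) := by
    intro i hi
    rw [mem_tight]
    have key := hev i
    rcases Finset.mem_insert.1 hi with rfl | hi
    · have h1 : σ i * ((ev u x i - t) + τ * (ev v x i - s)) = 0 := by
        have h2 : τ * (-(σ i * (ev v x i - s))) = σ i * (ev u x i - t) := by
          rw [hτ]
          exact div_mul_cancel₀ _ (by linarith [hl'] : (-(σ i * (ev v x i - s))) ≠ 0)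
        linear_combination -h2
      have h3 : (ev u x i - t) + τ * (ev v x i - s) = 0 := by
        have := congrArg (fun z => σ i * z) h1
        simp only [mul_zero] at this
        rw [← mul_assoc, hσ, one_mul] at this
        exact this
      linarith
    · have h1 := mem_tight.1 hi
      have h2 := hz i hi
      rw [h1, h2] at key
      linarith
  have hnot : l ∉ tight x u t := by
    intro hh
    have := hz l hh
    rw [this] at hl'
    simp at hl'
  calc (tight x u t).card < (insert l (tight x u t)).card := by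
        rw [Finset.card_insert_of_notMem hnot]; omega
    _ ≤ _ := Finset.card_le_card hsub

theorem exists_vertex (hn : 4 ≤ n) (x : Fin n × Fin 3 → ℝ) (hg : GenPos x) (A : Finset (Fin n))
    (hA : A.Nonempty) (hA' : ∃ i, i ∉ A) (hs : Sep x A) :
    ∃ (u : Fin 3 → ℝ) (t : ℝ), WSep x A u t ∧ (tight x u t).card = 3 := by
  have key : ∀ m : ℕ, m ≤ 3 → ∃ (u : Fin 3 → ℝ) (t : ℝ), WSep x A u t ∧
      m ≤ (tight x u t).card := by
    intro m
    induction m with
    | zero =>
      intro _
      obtain ⟨u, t, h1, h2⟩ := hs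
      refine ⟨u, t, ⟨?_, fun i hi => (h1 i hi).le, fun i hi => (h2 i hi).le⟩, Nat.zero_le _⟩
      rintro rfl
      obtain ⟨i, hi⟩ := hA
      obtain ⟨j, hj⟩ := hA'
      have h3 := h1 i hi
      have h4 := h2 j hj
      rw [ev_zero] at h3 h4
      linarith
    | succ m ih =>
      intro hm
      obtain ⟨u, t, h1, h2⟩ := ih (by omega)
      by_cases h3 : m + 1 ≤ (tight x u t).card
      · exact ⟨u, t, h1, h3⟩
      · obtain ⟨u', t', h4, h5⟩ := pivot hn x hg A hA hA' u t h1 (by omega)
        exact ⟨u', t', h4, by omega⟩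
  obtain ⟨u, t, h1, h2⟩ := key 3 le_rfl
  refine ⟨u, t, h1, le_antisymm ?_ h2⟩
  exact hg u t h1.1 _ (fun i hi => mem_tight.1 hi)

end Pool.Agent.SmH
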