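import Pool.Agent.SmH.Estimate
import Pool.Agent.SmH.Vertex

/-!
# Halving partitions are counted by planes through three points
-/

open MeasureTheory Function
open scoped ENNReal

namespace Pool.Agent.SmH

variable {n : ℕ}

/-- The number of unordered partitions of the point set into two halves which are strictly
separated by a plane. -/
noncomputable def halvings (x : Fin n × Fin 3 → ℝ) : ℕ :=
  Set.ncard {P : Finset (Finset (Fin n)) |
    ∃ A : Finset (Fin n), 2 * A.card = n ∧ Sep x A ∧ P = {A, Aᶜ}}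

/-- The points strictly above the plane through `i, j, l`. -/
noncomputable def above (c : Fin 3) (x : Fin n × Fin 3 → ℝ) (i j l : Fin n) : Finset (Fin n) :=
  Finset.univ.filter (fun q => q ≠ i ∧ q ≠ j ∧ q ≠ l ∧
    hgt c x (aT c x i j l) (bT c x i j l) l < hgt c x (aT c x i j l) (bT c x i j l) q)

/-- The partition belonging to a triple and a subset of the triple. -/
noncomputable def recon (c : Fin 3) (x : Fin n × Fin 3 → ℝ) (i j l : Fin n)
    (S : Finset (Fin n)) : Finset (Finset (Fin n)) :=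
  {above c x i j l ∪ S, (above c x i j l ∪ S)ᶜ}

theorem data_of_above {p : Fin n × Fin 3 → ℝ} {σ : ℝ} {x : Fin n × Fin 3 → ℝ} (hx : x ∈ Box p σ)
    {k : ℕ} {c : Fin 3} {i j l : Fin n}
    (hD : D c x i j l ≠ 0) (ha : |aT c x i j l| ≤ 1) (hb : |bT c x i j l| ≤ 1)
    (B : Finset (Fin n)) (hBk : B.card = k)
    (hB : ∀ q, q ≠ i → q ≠ j → q ≠ l →
      hgt c x (aT c x i j l) (bT c x i j l) q ≠ hgt c x (aT c x i j l) (bT c x i j l) l ∧
      (q ∈ B ↔ hgt c x (aT c x i j l) (bT c x i j l) l <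
        hgt c x (aT c x i j l) (bT c x i j l) q)) :
    x ∈ Evt p σ c (k - (B ∩ {i, j, l}).card) i j l ∧
      ({B, Bᶜ} : Finset (Finset (Fin n))) = recon c x i j l (B ∩ {i, j, l}) := by
  classical
  have h1 : above c x i j l = B \ {i, j, l} := by
    ext q
    simp only [above, Finset.mem_filter, Finset.mem_univ, true_and, Finset.mem_sdiff,
      Finset.mem_insert, Finset.mem_singleton, not_or]
    constructor
    · rintro ⟨h1, h2, h3, h4⟩
      exact ⟨((hB q h1 h2 h3).2).2 h4, h1, h2, h3⟩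
    · rintro ⟨h4, h1, h2, h3⟩
      exact ⟨h1, h2, h3, ((hB q h1 h2 h3).2).1 h4⟩
  have h2 : above c x i j l ∪ (B ∩ {i, j, l}) = B := by
    rw [h1, Finset.sdiff_union_inter]
  have h3 : rk c x (aT c x i j l) (bT c x i j l) i j l = (above c x i j l).card := by
    unfold rk above
    congr 1
    apply Finset.filter_congr
    intro q _
    constructor
    · rintro ⟨e1, e2, e3, e4⟩
      refine ⟨e1, e2, e3, ?_⟩
      rcases e4 with e4 | ⟨e4, _⟩
      · exact e4
      · exact absurd e4 (hB q e1 e2 e3).1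
    · rintro ⟨e1, e2, e3, e4⟩
      exact ⟨e1, e2, e3, Or.inl e4⟩
  constructor
  · refine ⟨hx, hD, ha, hb, ?_⟩
    rw [h3, h1, Finset.card_sdiff, Finset.inter_comm, hBk]
  · unfold recon
    rw [h2]

theorem exists_data {p : Fin n × Fin 3 → ℝ} {σ : ℝ} {x : Fin n × Fin 3 → ℝ} (hx : x ∈ Box p σ)
    (hg : Good x) (hn : 4 ≤ n) {k : ℕ} (hk : 2 * k = n) (A : Finset (Fin n))
    (hA : A.card = k) (hs : Sep x A) :
    ∃ (c : Fin 3) (i j l : Fin n) (S : Finset (Fin n)), i ≠ j ∧ l ≠ i ∧ l ≠ j ∧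
      S ⊆ {i, j, l} ∧ x ∈ Evt p σ c (k - S.card) i j l ∧
      ({A, Aᶜ} : Finset (Finset (Fin n))) = recon c x i j l S := by
  classical
  have hA1 : A.Nonempty := by
    rw [← Finset.card_pos]; omega
  have hA2 : ∃ i, i ∉ A := by
    by_contra hh
    push Not at hh
    have : A = Finset.univ := Finset.eq_univ_iff_forall.2 hh
    rw [this] at hA
    simp at hA
    omega
  obtain ⟨u, t, hw, ht⟩ := exists_vertex hn x hg.genPos A hA1 hA2 hs
  obtain ⟨i, j, l, hij, hil, hjl, hT⟩ := Finset.card_eq_three.1 ht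
  obtain ⟨c, hc⟩ := Finite.exists_max (fun c : Fin 3 => |u c|)
  have huc : u c ≠ 0 := by
    intro h0
    apply hw.1
    funext d
    have := hc d
    simp only [h0, abs_zero] at this
    exact abs_nonpos_iff.1 this
  have huc' : 0 < |u c| := abs_pos.2 huc
  set a := -(u (c + 1)) / u c with ha
  set b := -(u (c + 2)) / u c with hb
  have ha1 : |a| ≤ 1 := by
    rw [ha, abs_div, abs_neg, div_le_one huc']
    exact hc _
  have hb1 : |b| ≤ 1 := by
    rw [hb, abs_div, abs_neg, div_le_one huc']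
    exact hc _
  have hev : ∀ q, ev u x q = u c * hgt c x a b q := fun q => ev_hgt c u huc x q
  have hti : ev u x i = t := mem_tight.1 (by rw [hT]; simp)
  have htj : ev u x j = t := mem_tight.1 (by rw [hT]; simp)
  have htl : ev u x l = t := mem_tight.1 (by rw [hT]; simp)
  have hil' : hgt c x a b i = hgt c x a b l := by
    apply mul_left_cancel₀ huc
    rw [← hev, ← hev, hti, htl]
  have hjl' : hgt c x a b j = hgt c x a b l := by
    apply mul_left_cancel₀ huc
    rw [← hev, ← hev, htj, htl]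
  have hD := hg.1 c i j l hij hil hjl
  obtain ⟨hae, hbe⟩ := cramer hD hil' hjl'
  have hnt : ∀ q, q ≠ i → q ≠ j → q ≠ l → ev u x q ≠ t := by
    intro q h1 h2 h3 h4
    have : q ∈ tight x u t := mem_tight.2 h4
    rw [hT] at this
    simp [h1, h2, h3] at this
  rw [hae] at ha1
  rw [hbe] at hb1
  have hev' : ∀ q, ev u x q = u c * hgt c x (aT c x i j l) (bT c x i j l) q := by
    intro q
    rw [← hae, ← hbe]
    exact hev q
  have htl' : t = u c * hgt c x (aT c x i j l) (bT c x i j l) l := by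
    rw [← hev', htl]
  have hne : ∀ q, q ≠ i → q ≠ j → q ≠ l →
      hgt c x (aT c x i j l) (bT c x i j l) q ≠ hgt c x (aT c x i j l) (bT c x i j l) l := by
    intro q h1 h2 h3 h4
    apply hnt q h1 h2 h3
    rw [hev', h4, ← htl']
  rcases lt_or_gt_of_ne huc with hneg | hpos
  · have := data_of_above hx hD ha1 hb1 Aᶜ (k := k)
      (by rw [Finset.card_compl, Fintype.card_fin, hA]; omega) ?_
    · refine ⟨c, i, j, l, Aᶜ ∩ {i, j, l}, hij, hil.symm, hjl.symm, Finset.inter_subset_right,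
        this.1, ?_⟩
      rw [← this.2, compl_compl, Finset.pair_comm]
    · intro q h1 h2 h3
      refine ⟨hne q h1 h2 h3, ?_⟩
      rw [Finset.mem_compl]
      constructor
      · intro hq
        have h4 := lt_of_le_of_ne (hw.2.2 q hq) (hnt q h1 h2 h3)
        rw [hev', htl'] at h4
        exact (mul_lt_mul_left_of_neg hneg).1 h4
      · intro hq hq'
        have h4 := hw.2.1 q hq'
        rw [hev', htl'] at h4
        have h5 := (mul_le_mul_left_of_neg hneg).1 h4
        linarith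
  · have := data_of_above hx hD ha1 hb1 A (k := k) hA ?_
    · exact ⟨c, i, j, l, A ∩ {i, j, l}, hij, hil.symm, hjl.symm, Finset.inter_subset_right,
        this.1, this.2⟩
    · intro q h1 h2 h3
      refine ⟨hne q h1 h2 h3, ?_⟩
      constructor
      · intro hq
        have h4 := lt_of_le_of_ne (hw.2.1 q hq) (Ne.symm (hnt q h1 h2 h3))
        rw [hev', htl'] at h4
        exact lt_of_mul_lt_mul_left h4 hpos.le
      · intro hq
        by_contra hq'
        have h4 := hw.2.2 q hq'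
        rw [hev', htl'] at h4
        have h5 := le_of_mul_le_mul_left h4 hpos
        linarith

/-- Pointwise bound of the number of halving partitions. -/
theorem halvings_le {p : Fin n × Fin 3 → ℝ} {σ : ℝ} {x : Fin n × Fin 3 → ℝ} (hx : x ∈ Box p σ)
    (hg : Good x) (hn : 4 ≤ n) {k : ℕ} (hk : 2 * k = n) :
    (halvings x : ℝ≥0∞) ≤ ∑ c : Fin 3, ∑ i : Fin n, ∑ j ∈ Finset.univ.filter (fun j => i ≠ j),
      ∑ l ∈ Finset.univ.filter (fun l => l ≠ i ∧ l ≠ j),
        ∑ S ∈ ({i, j, l} : Finset (Fin n)).powerset,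
          (Evt p σ c (k - S.card) i j l).indicator (fun _ => (1 : ℝ≥0∞)) x := by
  classical
  let T : Finset (Fin 3 × Fin n × Fin n × Fin n × Finset (Fin n)) :=
    Finset.univ.filter (fun d => d.2.1 ≠ d.2.2.1 ∧ (d.2.2.2.1 ≠ d.2.1 ∧ d.2.2.2.1 ≠ d.2.2.1) ∧
      d.2.2.2.2 ⊆ {d.2.1, d.2.2.1, d.2.2.2.1} ∧
      x ∈ Evt p σ d.1 (k - d.2.2.2.2.card) d.2.1 d.2.2.1 d.2.2.2.1)
  have h1 : {P : Finset (Finset (Fin n)) |
      ∃ A : Finset (Fin n), 2 * A.card = n ∧ Sep x A ∧ P = {A, Aᶜ}} ⊆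
      ↑(T.image (fun d => recon d.1 x d.2.1 d.2.2.1 d.2.2.2.1 d.2.2.2.2)) := by
    rintro P ⟨A, hA, hs, rfl⟩
    obtain ⟨c, i, j, l, S, e1, e2, e3, e4, e5, e6⟩ :=
      exists_data hx hg hn hk A (by omega) hs
    rw [Finset.mem_coe, Finset.mem_image]
    refine ⟨(c, i, j, l, S), ?_, e6.symm⟩
    simp only [T, Finset.mem_filter, Finset.mem_univ, true_and]
    exact ⟨e1, ⟨e2, e3⟩, e4, e5⟩
  have h2 : halvings x ≤ T.card := by
    unfold halvings
    calc _ ≤ (↑(T.image (fun d => recon d.1 x d.2.1 d.2.2.1 d.2.2.2.1 d.2.2.2.2)) :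
          Set (Finset (Finset (Fin n)))).ncard := Set.ncard_le_ncard h1 (Finset.finite_toSet _)
      _ = (T.image (fun d => recon d.1 x d.2.1 d.2.2.1 d.2.2.2.1 d.2.2.2.2)).card :=
          Set.ncard_coe_finset _
      _ ≤ T.card := Finset.card_image_le
  refine (Nat.cast_le.2 h2).trans (le_of_eq ?_)
  have h3 : (T.card : ℝ≥0∞) = ∑ d : Fin 3 × Fin n × Fin n × Fin n × Finset (Fin n),
      (if d.2.1 ≠ d.2.2.1 then (if d.2.2.2.1 ≠ d.2.1 ∧ d.2.2.2.1 ≠ d.2.2.1 then
        (if d.2.2.2.2 ⊆ {d.2.1, d.2.2.1, d.2.2.2.1} then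
        (Evt p σ d.1 (k - d.2.2.2.2.card) d.2.1 d.2.2.1 d.2.2.2.1).indicator
          (fun _ => (1 : ℝ≥0∞)) x else 0) else 0) else 0) := by
    simp only [T]
    rw [Finset.card_filter, Nat.cast_sum]
    refine Finset.sum_congr rfl fun d _ => ?_
    by_cases e1 : d.2.1 ≠ d.2.2.1
    · by_cases e2 : d.2.2.2.1 ≠ d.2.1 ∧ d.2.2.2.1 ≠ d.2.2.1
      · by_cases e3 : d.2.2.2.2 ⊆ {d.2.1, d.2.2.1, d.2.2.2.1}
        · rw [if_pos e1, if_pos e2, if_pos e3]
          by_cases e4 : x ∈ Evt p σ d.1 (k - d.2.2.2.2.card) d.2.1 d.2.2.1 d.2.2.2.1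
          · rw [if_pos ⟨e1, e2, e3, e4⟩, Set.indicator_of_mem e4]; simp
          · rw [if_neg (fun h => e4 h.2.2.2), Set.indicator_of_notMem e4]; simp
        · rw [if_pos e1, if_pos e2, if_neg e3, if_neg (fun h => e3 h.2.2.1)]; simp
      · rw [if_pos e1, if_neg e2, if_neg (fun h => e2 h.2.1)]; simp
    · rw [if_neg e1, if_neg (fun h => e1 h.1)]; simp
  rw [h3, Fintype.sum_prod_type]
  refine Finset.sum_congr rfl fun c _ => ?_
  rw [Fintype.sum_prod_type]
  refine Finset.sum_congr rfl fun i _ => ?_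
  rw [Fintype.sum_prod_type, Finset.sum_filter]
  refine Finset.sum_congr rfl fun j _ => ?_
  by_cases e1 : i ≠ j
  · simp only [if_pos e1]
    rw [Fintype.sum_prod_type, Finset.sum_filter]
    refine Finset.sum_congr rfl fun l _ => ?_
    by_cases e2 : l ≠ i ∧ l ≠ j
    · simp only [if_pos e2]
      rw [← Finset.sum_filter]
      refine Finset.sum_congr ?_ fun _ _ => rfl
      ext S
      simp
    · simp only [if_neg e2, Finset.sum_const_zero]
  · simp only [if_neg e1, Finset.sum_const_zero]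

end Pool.Agent.SmH
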