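import Mathlib

/-!
# Halving partitions of perturbed point sets: definitions and linear algebra

A configuration of `n` points of 3-space is a function `x : Fin n × Fin 3 → ℝ`; the point with
index `i` has the coordinates `x (i, 0), x (i, 1), x (i, 2)`.
-/

open MeasureTheory Function
open scoped ENNReal

namespace Pool.Agent.SmH

/-- The value at the point `i` of the linear functional with coefficients `u`. -/
def ev {n : ℕ} (u : Fin 3 → ℝ) (x : Fin n × Fin 3 → ℝ) (i : Fin n) : ℝ := ∑ c, u c * x (i, c)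

/-- The points with index in `A` lie strictly on one side of some plane, and all the other points
lie strictly on the other side. -/
def Sep {n : ℕ} (x : Fin n × Fin 3 → ℝ) (A : Finset (Fin n)) : Prop :=
  ∃ (u : Fin 3 → ℝ) (t : ℝ), (∀ i ∈ A, t < ev u x i) ∧ (∀ i, i ∉ A → ev u x i < t)

/-- Projected area determinant of three points, projection along the axis `c`. -/
def D {n : ℕ} (c : Fin 3) (x : Fin n × Fin 3 → ℝ) (i j k : Fin n) : ℝ :=
  (x (i, c + 1) - x (k, c + 1)) * (x (j, c + 2) - x (k, c + 2)) -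
    (x (j, c + 1) - x (k, c + 1)) * (x (i, c + 2) - x (k, c + 2))

/-- First slope of the plane through three points, seen as a graph over the axes other
than `c`. -/
noncomputable def aT {n : ℕ} (c : Fin 3) (x : Fin n × Fin 3 → ℝ) (i j k : Fin n) : ℝ :=
  ((x (i, c) - x (k, c)) * (x (j, c + 2) - x (k, c + 2)) -
    (x (j, c) - x (k, c)) * (x (i, c + 2) - x (k, c + 2))) / D c x i j k

/-- Second slope of the plane through three points. -/
noncomputable def bT {n : ℕ} (c : Fin 3) (x : Fin n × Fin 3 → ℝ) (i j k : Fin n) : ℝ :=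
  ((x (i, c + 1) - x (k, c + 1)) * (x (j, c) - x (k, c)) -
    (x (j, c + 1) - x (k, c + 1)) * (x (i, c) - x (k, c))) / D c x i j k

/-- Height of the point `l` above the plane with slopes `a, b`. -/
def hgt {n : ℕ} (c : Fin 3) (x : Fin n × Fin 3 → ℝ) (a b : ℝ) (l : Fin n) : ℝ :=
  x (l, c) - a * x (l, c + 1) - b * x (l, c + 2)

theorem ev_eq {n : ℕ} (c : Fin 3) (u : Fin 3 → ℝ) (x : Fin n × Fin 3 → ℝ) (l : Fin n) :
    ev u x l = u c * x (l, c) + u (c + 1) * x (l, c + 1) + u (c + 2) * x (l, c + 2) := by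
  unfold ev
  rw [Fin.sum_univ_three]
  fin_cases c
  · rfl
  · show _ = u 1 * x (l, 1) + u 2 * x (l, 2) + u 0 * x (l, 0)
    ring
  · show _ = u 2 * x (l, 2) + u 0 * x (l, 0) + u 1 * x (l, 1)
    ring

theorem ev_hgt {n : ℕ} (c : Fin 3) (u : Fin 3 → ℝ) (hu : u c ≠ 0) (x : Fin n × Fin 3 → ℝ)
    (l : Fin n) :
    ev u x l = u c * hgt c x (-(u (c + 1)) / u c) (-(u (c + 2)) / u c) l := by
  rw [ev_eq c]
  unfold hgt
  field_simp
  ring

theorem cramer {n : ℕ} {c : Fin 3} {x : Fin n × Fin 3 → ℝ} {a b : ℝ} {i j k : Fin n}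
    (hD : D c x i j k ≠ 0) (hi : hgt c x a b i = hgt c x a b k)
    (hj : hgt c x a b j = hgt c x a b k) : a = aT c x i j k ∧ b = bT c x i j k := by
  unfold hgt at hi hj
  unfold aT bT
  constructor
  · rw [eq_div_iff hD]
    unfold D
    linear_combination (-(x (j, c + 2) - x (k, c + 2))) * hi + (x (i, c + 2) - x (k, c + 2)) * hj
  · rw [eq_div_iff hD]
    unfold D
    linear_combination (x (j, c + 1) - x (k, c + 1)) * hi - (x (i, c + 1) - x (k, c + 1)) * hj

theorem cramer' {n : ℕ} {c : Fin 3} {x : Fin n × Fin 3 → ℝ} {i j k : Fin n}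
    (hD : D c x i j k ≠ 0) :
    hgt c x (aT c x i j k) (bT c x i j k) i = hgt c x (aT c x i j k) (bT c x i j k) k ∧
    hgt c x (aT c x i j k) (bT c x i j k) j = hgt c x (aT c x i j k) (bT c x i j k) k := by
  have ha : aT c x i j k * D c x i j k = ((x (i, c) - x (k, c)) * (x (j, c + 2) - x (k, c + 2)) -
    (x (j, c) - x (k, c)) * (x (i, c + 2) - x (k, c + 2))) := by
    unfold aT; field_simp
  have hb : bT c x i j k * D c x i j k = ((x (i, c + 1) - x (k, c + 1)) * (x (j, c) - x (k, c)) -
    (x (j, c + 1) - x (k, c + 1)) * (x (i, c) - x (k, c))) := by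
    unfold bT; field_simp
  unfold hgt
  constructor
  · apply mul_right_cancel₀ hD
    have : (x (i, c) - aT c x i j k * x (i, c + 1) - bT c x i j k * x (i, c + 2)) * D c x i j k -
      (x (k, c) - aT c x i j k * x (k, c + 1) - bT c x i j k * x (k, c + 2)) * D c x i j k = 0 := by
      have e : (x (i, c) - aT c x i j k * x (i, c + 1) - bT c x i j k * x (i, c + 2)) * D c x i j k -
      (x (k, c) - aT c x i j k * x (k, c + 1) - bT c x i j k * x (k, c + 2)) * D c x i j k
        = (x (i, c) - x (k, c)) * D c x i j k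
          - (aT c x i j k * D c x i j k) * (x (i, c + 1) - x (k, c + 1))
          - (bT c x i j k * D c x i j k) * (x (i, c + 2) - x (k, c + 2)) := by ring
      rw [e, ha, hb]
      unfold D
      ring
    linarith
  · apply mul_right_cancel₀ hD
    have : (x (j, c) - aT c x i j k * x (j, c + 1) - bT c x i j k * x (j, c + 2)) * D c x i j k -
      (x (k, c) - aT c x i j k * x (k, c + 1) - bT c x i j k * x (k, c + 2)) * D c x i j k = 0 := by
      have e : (x (j, c) - aT c x i j k * x (j, c + 1) - bT c x i j k * x (j, c + 2)) * D c x i j k -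
      (x (k, c) - aT c x i j k * x (k, c + 1) - bT c x i j k * x (k, c + 2)) * D c x i j k
        = (x (j, c) - x (k, c)) * D c x i j k
          - (aT c x i j k * D c x i j k) * (x (j, c + 1) - x (k, c + 1))
          - (bT c x i j k * D c x i j k) * (x (j, c + 2) - x (k, c + 2)) := by ring
      rw [e, ha, hb]
      unfold D
      ring
    linarith

/-- A configuration is good if no three points are aligned in a coordinate projection and no
four points lie in a plane. -/
def Good {n : ℕ} (x : Fin n × Fin 3 → ℝ) : Prop :=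
  (∀ c i j k, i ≠ j → i ≠ k → j ≠ k → D c x i j k ≠ 0) ∧
  (∀ c i j k l, i ≠ j → i ≠ k → j ≠ k → l ≠ i → l ≠ j → l ≠ k →
    hgt c x (aT c x i j k) (bT c x i j k) l ≠ hgt c x (aT c x i j k) (bT c x i j k) k)

/-- No plane contains four of the points. -/
def GenPos {n : ℕ} (x : Fin n × Fin 3 → ℝ) : Prop :=
  ∀ (u : Fin 3 → ℝ) (t : ℝ), u ≠ 0 → ∀ S : Finset (Fin n), (∀ i ∈ S, ev u x i = t) → S.card ≤ 3

theorem Good.genPos {n : ℕ} {x : Fin n × Fin 3 → ℝ} (h : Good x) : GenPos x := by
  intro u t hu S hS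
  by_contra hc
  push_neg at hc
  obtain ⟨T, hTS, hT⟩ := Finset.exists_subset_card_eq (n := 4) (s := S) (by omega)
  obtain ⟨i, j, k, l, hij, hik, hil, hjk, hjl, hkl, rfl⟩ := Finset.card_eq_four.1 hT
  obtain ⟨c, hc⟩ : ∃ c, u c ≠ 0 := by
    by_contra hh
    push_neg at hh
    exact hu (funext hh)
  have key : ∀ m ∈ ({i, j, k, l} : Finset (Fin n)),
      hgt c x (-(u (c + 1)) / u c) (-(u (c + 2)) / u c) m = t / u c := by
    intro m hm
    have h1 := hS m (hTS hm)
    rw [ev_hgt c u hc] at h1
    rw [← h1]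
    field_simp
  have ki := key i (by simp)
  have kj := key j (by simp)
  have kk := key k (by simp)
  have kl := key l (by simp)
  have hD := h.1 c i j k hij hik hjk
  obtain ⟨ha, hb⟩ := cramer (x := x) hD (ki.trans kk.symm) (kj.trans kk.symm)
  rw [ha, hb] at kk kl
  exact h.2 c i j k l hij hik hjk hil.symm hjl.symm hkl.symm (kl.trans kk.symm)

end Pool.Agent.SmH
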