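import Pool.Agent.SmH.Rank

/-!
# The expected number of planes through two given points
-/

open MeasureTheory Function
open scoped ENNReal

namespace Pool.Agent.SmH

variable {n : ℕ}

theorem sum_slices_le (p : Fin n × Fin 3 → ℝ) (hp : ∀ e, p e ∈ Set.Icc (0 : ℝ) 1) (σ : ℝ)
    (hσ : 0 < σ) (hσ1 : σ ≤ 1) (c : Fin 3) (m : ℕ) (x : Fin n × Fin 3 → ℝ)
    (i j : Fin n) (hij : i ≠ j) :
    ∑ k ∈ Finset.univ.filter (fun k => k ≠ i ∧ k ≠ j),
      volume {q : ℝ × ℝ | upd c x i j q ∈ Evt p σ c m i j k} ≤ ENNReal.ofReal (16 * σ) := by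
  by_cases hx : ∀ e, e ≠ (i, c) → e ≠ (j, c) → x e ∈ Set.Icc (p e) (p e + σ)
  · set α := x (i, c + 1) - x (j, c + 1) with hα
    set β := x (i, c + 2) - x (j, c + 2) with hβ
    have hrange : ∀ e, e ≠ (i, c) → e ≠ (j, c) → 0 ≤ x e ∧ x e ≤ 2 := by
      intro e h1 h2
      have h3 := hx e h1 h2
      have h4 := hp e
      exact ⟨h4.1.trans h3.1, by linarith [h3.2, h4.2]⟩
    have hr1 : ∀ l, 0 ≤ x (l, c + 1) ∧ x (l, c + 1) ≤ 2 := by
      intro l
      apply hrange
      · intro h; exact add_one_ne_self' c (congrArg Prod.snd h)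
      · intro h; exact add_one_ne_self' c (congrArg Prod.snd h)
    have hr2 : ∀ l, 0 ≤ x (l, c + 2) ∧ x (l, c + 2) ≤ 2 := by
      intro l
      apply hrange
      · intro h; exact add_two_ne_self c (congrArg Prod.snd h)
      · intro h; exact add_two_ne_self c (congrArg Prod.snd h)
    have hD : ∀ k, |D c x i j k| ≤ 2 * (|α| + |β|) := by
      intro k
      rw [D_eq]
      have h1 : |x (j, c + 2) - x (k, c + 2)| ≤ 2 := by
        rw [abs_le]
        constructor <;> linarith [(hr2 j).1, (hr2 j).2, (hr2 k).1, (hr2 k).2]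
      have h2 : |x (j, c + 1) - x (k, c + 1)| ≤ 2 := by
        rw [abs_le]
        constructor <;> linarith [(hr1 j).1, (hr1 j).2, (hr1 k).1, (hr1 k).2]
      calc |α * (x (j, c + 2) - x (k, c + 2)) - (x (j, c + 1) - x (k, c + 1)) * β|
          ≤ |α * (x (j, c + 2) - x (k, c + 2))| + |(x (j, c + 1) - x (k, c + 1)) * β| :=
            abs_sub _ _
        _ = |α| * |x (j, c + 2) - x (k, c + 2)| + |x (j, c + 1) - x (k, c + 1)| * |β| := by
            rw [abs_mul, abs_mul]
        _ ≤ |α| * 2 + 2 * |β| := by gcongr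
        _ = 2 * (|α| + |β|) := by ring
    have hdisj : (↑(Finset.univ.filter (fun k => k ≠ i ∧ k ≠ j)) : Set (Fin n)).PairwiseDisjoint
        (Slopes p σ c m x i j) := by
      intro k hk k' hk' hne
      simp only [Finset.coe_filter, Finset.mem_univ, true_and, Set.mem_ofPred_eq] at hk hk'
      rw [Function.onFun, Set.disjoint_left]
      intro q hq hq'
      exact hne (rk_inj hk.1 hk.2 hk'.1 hk'.2 (hq.2.trans hq'.2.symm))
    calc ∑ k ∈ Finset.univ.filter (fun k => k ≠ i ∧ k ≠ j),
        volume {q : ℝ × ℝ | upd c x i j q ∈ Evt p σ c m i j k}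
        ≤ ∑ k ∈ Finset.univ.filter (fun k => k ≠ i ∧ k ≠ j),
          ENNReal.ofReal (2 * (|α| + |β|)) * volume (Slopes p σ c m x i j k) := by
          apply Finset.sum_le_sum
          intro k hk
          simp only [Finset.mem_filter, Finset.mem_univ, true_and] at hk
          refine (slice_le p σ c m x i j k hij hk.1 hk.2).trans ?_
          gcongr
          exact hD k
      _ = ENNReal.ofReal (2 * (|α| + |β|)) *
          volume (⋃ k ∈ Finset.univ.filter (fun k => k ≠ i ∧ k ≠ j), Slopes p σ c m x i j k) := by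
          rw [← Finset.mul_sum, measure_biUnion_finset hdisj
            (fun k _ => measurable_Slopes p σ c m x i j k)]
      _ ≤ ENNReal.ofReal (2 * (|α| + |β|)) *
          volume {q : ℝ × ℝ | |q.1| ≤ 1 ∧ |q.2| ≤ 1 ∧
            |q.1 * α + q.2 * β - (p (i, c) - p (j, c))| ≤ σ} := by
          gcongr
          intro q hq
          simp only [Set.mem_iUnion] at hq
          obtain ⟨k, _, hk⟩ := hq
          exact hk.1
      _ ≤ ENNReal.ofReal (16 * σ) := by
          rw [mul_comm]
          exact vol_strip α β _ σ hσ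
  · push Not at hx
    obtain ⟨e, he1, he2, he3⟩ := hx
    have : ∀ k, {q : ℝ × ℝ | upd c x i j q ∈ Evt p σ c m i j k} = ∅ := by
      intro k
      rw [Set.eq_empty_iff_forall_notMem]
      rintro q ⟨hq, -⟩
      have := hq e
      rw [upd_other c x i j q e he1 he2] at this
      exact he3 this
    simp [this]

/-- The noise: independent coordinates, with density at most `K / σ`, supported in intervals of
length `σ`. -/
def Noise (μ : Fin n × Fin 3 → Measure ℝ) (p : Fin n × Fin 3 → ℝ) (K σ : ℝ) : Prop :=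
  ∀ e, μ e ≤ ENNReal.ofReal (K / σ) • volume.restrict (Set.Icc (p e) (p e + σ))

theorem sum_events_le (μ : Fin n × Fin 3 → Measure ℝ) [∀ i, IsProbabilityMeasure (μ i)]
    (p : Fin n × Fin 3 → ℝ) (hp : ∀ e, p e ∈ Set.Icc (0 : ℝ) 1) (K σ : ℝ) (hK : 0 ≤ K)
    (hσ : 0 < σ) (hσ1 : σ ≤ 1) (hμ : Noise μ p K σ) (c : Fin 3) (m : ℕ)
    (i j : Fin n) (hij : i ≠ j) :
    ∑ k ∈ Finset.univ.filter (fun k => k ≠ i ∧ k ≠ j),
      Measure.pi μ (Evt p σ c m i j k) ≤ ENNReal.ofReal (16 * K ^ 2 / σ) := by
  classical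
  set s := Finset.univ.filter (fun k : Fin n => k ≠ i ∧ k ≠ j) with hs
  let F : (Fin n × Fin 3 → ℝ) → ℝ≥0∞ := fun x =>
    ∑ k ∈ s, (Evt p σ c m i j k).indicator (fun _ => (1 : ℝ≥0∞)) x
  have hF : Measurable F :=
    Finset.measurable_fun_sum _ (fun k _ => measurable_const.indicator (measurable_Evt p σ c m i j k))
  have h1 : ∑ k ∈ s, Measure.pi μ (Evt p σ c m i j k) = ∫⁻ x, F x ∂Measure.pi μ := by
    rw [lintegral_finsetSum _
      (fun k _ => measurable_const.indicator (measurable_Evt p σ c m i j k))]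
    refine Finset.sum_congr rfl fun k _ => ?_
    rw [lintegral_indicator_const (measurable_Evt p σ c m i j k), one_mul]
  rw [h1]
  have h2 : ∫⁻ x, F x ∂Measure.pi μ ≤
      ∫⁻ _, ENNReal.ofReal (16 * K ^ 2 / σ) ∂Measure.pi μ := by
    refine lintegral_le_of_lmarginal_le (insert (i, c) {(j, c)}) hF measurable_const ?_
    intro x
    have hR : (∫⋯∫⁻_(insert (i, c) {(j, c)}), (fun _ => ENNReal.ofReal (16 * K ^ 2 / σ)) ∂μ) x =
        ENNReal.ofReal (16 * K ^ 2 / σ) := by
      simp [lmarginal]
    rw [hR]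
    have hne : (i, c) ∉ ({(j, c)} : Finset (Fin n × Fin 3)) := by
      simp [hij]
    rw [lmarginal_insert' _ hF hne, lmarginal_singleton]
    have hle : ∀ e, μ e ≤ ENNReal.ofReal (K / σ) • (volume : Measure ℝ) := by
      intro e
      refine (hμ e).trans ?_
      gcongr
      exact Measure.restrict_le_self
    have hG : Measurable (fun q : ℝ × ℝ => F (upd c x i j q)) := hF.comp (measurable_upd c x i j)
    calc ∫⁻ t, ∫⁻ s', F (update (update x (j, c) t) (i, c) s') ∂μ (i, c) ∂μ (j, c)
        ≤ ∫⁻ t, ∫⁻ s', F (update (update x (j, c) t) (i, c) s')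
            ∂(ENNReal.ofReal (K / σ) • (volume : Measure ℝ))
            ∂(ENNReal.ofReal (K / σ) • (volume : Measure ℝ)) := by
          apply lintegral_mono' (hle _)
          intro t
          exact lintegral_mono' (hle _) le_rfl
      _ = ENNReal.ofReal (K / σ) * (ENNReal.ofReal (K / σ) *
            ∫⁻ t, ∫⁻ s', F (update (update x (j, c) t) (i, c) s')) := by
          simp only [lintegral_smul_measure, smul_eq_mul]
          rw [lintegral_const_mul]
          exact Measurable.lintegral_prod_right hG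
      _ = ENNReal.ofReal (K / σ) * (ENNReal.ofReal (K / σ) *
            ∫⁻ q : ℝ × ℝ, F (upd c x i j q)) := by
          rw [Measure.volume_eq_prod, lintegral_prod _ hG.aemeasurable]
          rfl
      _ = ENNReal.ofReal (K / σ) * (ENNReal.ofReal (K / σ) *
            ∑ k ∈ s, volume {q : ℝ × ℝ | upd c x i j q ∈ Evt p σ c m i j k}) := by
          congr 2
          have hms' : ∀ k ∈ s, Measurable (fun q : ℝ × ℝ =>
              (Evt p σ c m i j k).indicator (fun _ => (1 : ℝ≥0∞)) (upd c x i j q)) :=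
            fun k _ => (measurable_const.indicator
              (measurable_Evt p σ c m i j k)).comp (measurable_upd c x i j)
          simp only [F]
          rw [lintegral_finsetSum s hms']
          refine Finset.sum_congr rfl fun k _ => ?_
          have hms : MeasurableSet {q : ℝ × ℝ | upd c x i j q ∈ Evt p σ c m i j k} :=
            (measurable_Evt p σ c m i j k).preimage (measurable_upd c x i j)
          rw [← one_mul (volume {q : ℝ × ℝ | upd c x i j q ∈ Evt p σ c m i j k}),
            ← lintegral_indicator_const hms]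
          rfl
      _ ≤ ENNReal.ofReal (K / σ) * (ENNReal.ofReal (K / σ) * ENNReal.ofReal (16 * σ)) := by
          gcongr
          exact sum_slices_le p hp σ hσ hσ1 c m x i j hij
      _ = ENNReal.ofReal (16 * K ^ 2 / σ) := by
          rw [← ENNReal.ofReal_mul (by positivity), ← ENNReal.ofReal_mul (by positivity)]
          congr 1
          field_simp
  refine h2.trans (le_of_eq ?_)
  simp

end Pool.Agent.SmH
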