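import Pool.Agent.SmH.Count

/-!
# The expected number of halving partitions
-/

open MeasureTheory Function
open scoped ENNReal

namespace Pool.Agent.SmH

variable {n : ℕ}

theorem isOpen_sep (A : Finset (Fin n)) : IsOpen {x : Fin n × Fin 3 → ℝ | Sep x A} := by
  have : {x : Fin n × Fin 3 → ℝ | Sep x A} = ⋃ (u : Fin 3 → ℝ), ⋃ (t : ℝ),
      ((⋂ i ∈ A, {x | t < ev u x i}) ∩ (⋂ i ∈ Aᶜ, {x | ev u x i < t})) := by
    ext x
    simp only [Set.mem_iUnion, Set.mem_inter_iff, Set.mem_iInter, Finset.mem_compl]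
    exact Iff.rfl
  rw [this]
  have hc : ∀ (u : Fin 3 → ℝ) (i : Fin n),
      Continuous (fun x : Fin n × Fin 3 → ℝ => ev u x i) := by
    intro u i
    unfold ev
    fun_prop
  refine isOpen_iUnion fun u => isOpen_iUnion fun t => IsOpen.inter ?_ ?_
  · exact isOpen_biInter_finset fun i _ => isOpen_lt continuous_const (hc u i)
  · exact isOpen_biInter_finset fun i _ => isOpen_lt (hc u i) continuous_const

theorem measurable_halvings : Measurable (halvings : (Fin n × Fin 3 → ℝ) → ℕ) := by
  classical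
  have : (halvings : (Fin n × Fin 3 → ℝ) → ℕ) = fun x => ∑ P : Finset (Finset (Fin n)),
      if (∃ A : Finset (Fin n), 2 * A.card = n ∧ Sep x A ∧ P = {A, Aᶜ}) then 1 else 0 := by
    funext x
    unfold halvings
    rw [Set.ncard_eq_toFinset_card']
    rw [← Finset.card_filter]
    congr 1
    ext P
    simp
  rw [this]
  apply Finset.measurable_fun_sum
  intro P _
  refine Measurable.ite ?_ measurable_const measurable_const
  have h2 : {x : Fin n × Fin 3 → ℝ |
      ∃ A : Finset (Fin n), 2 * A.card = n ∧ Sep x A ∧ P = {A, Aᶜ}} =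
      ⋃ A : Finset (Fin n), {x | 2 * A.card = n ∧ Sep x A ∧ P = {A, Aᶜ}} := by
    ext x
    simp only [Set.mem_iUnion]
    exact Iff.rfl
  rw [h2]
  refine MeasurableSet.iUnion fun A => ?_
  by_cases h3 : 2 * A.card = n
  · by_cases h4 : P = {A, Aᶜ}
    · have : {x : Fin n × Fin 3 → ℝ | 2 * A.card = n ∧ Sep x A ∧ P = {A, Aᶜ}} =
          {x | Sep x A} := by
        ext x
        exact ⟨fun h => h.2.1, fun h => ⟨h3, h, h4⟩⟩
      rw [this]
      exact (isOpen_sep A).measurableSet
    · have : {x : Fin n × Fin 3 → ℝ | 2 * A.card = n ∧ Sep x A ∧ P = {A, Aᶜ}} = ∅ := by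
        rw [Set.eq_empty_iff_forall_notMem]
        exact fun x h => h4 h.2.2
      rw [this]
      exact MeasurableSet.empty
  · have : {x : Fin n × Fin 3 → ℝ | 2 * A.card = n ∧ Sep x A ∧ P = {A, Aᶜ}} = ∅ := by
      rw [Set.eq_empty_iff_forall_notMem]
      exact fun x h => h3 h.1
    rw [this]
    exact MeasurableSet.empty

variable (μ : Fin n × Fin 3 → Measure ℝ) [∀ i, IsProbabilityMeasure (μ i)]

theorem noise_one_le {p : Fin n × Fin 3 → ℝ} {K σ : ℝ} (hσ : 0 < σ) (hμ : Noise μ p K σ)
    (e : Fin n × Fin 3) : 1 ≤ K := by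
  have h1 : μ e Set.univ ≤ (ENNReal.ofReal (K / σ) •
      volume.restrict (Set.Icc (p e) (p e + σ))) Set.univ := hμ e Set.univ
  rw [measure_univ, Measure.smul_apply, Measure.restrict_apply MeasurableSet.univ, Set.univ_inter,
    Real.volume_Icc, smul_eq_mul, add_sub_cancel_left] at h1
  by_contra hK
  push Not at hK
  have h2 : ENNReal.ofReal (K / σ) * ENNReal.ofReal σ < 1 := by
    rw [← ENNReal.ofReal_mul' hσ.le, div_mul_cancel₀ _ hσ.ne']
    rw [ENNReal.ofReal_lt_one]
    exact hK
  exact absurd h1 (not_le.2 h2)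

theorem noise_atom {p : Fin n × Fin 3 → ℝ} {K σ : ℝ} (hμ : Noise μ p K σ)
    (e : Fin n × Fin 3) (t : ℝ) : μ e {t} = 0 := by
  have h1 : μ e {t} ≤ (ENNReal.ofReal (K / σ) •
      volume.restrict (Set.Icc (p e) (p e + σ))) {t} := hμ e {t}
  have h2 : (ENNReal.ofReal (K / σ) •
      (volume.restrict (Set.Icc (p e) (p e + σ)) : Measure ℝ)) {t} = 0 := by
    rw [Measure.smul_apply]
    have : volume.restrict (Set.Icc (p e) (p e + σ)) {t} = 0 := measure_singleton t
    rw [this]; simp
  rw [h2] at h1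
  exact le_antisymm h1 zero_le

theorem noise_box {p : Fin n × Fin 3 → ℝ} {K σ : ℝ} (hμ : Noise μ p K σ) :
    ∀ᵐ x ∂(Measure.pi μ), x ∈ Box p σ := by
  have h1 : ∀ e, ∀ᵐ x ∂(Measure.pi μ), x e ∈ Set.Icc (p e) (p e + σ) := by
    intro e
    have h2 : μ e (Set.Icc (p e) (p e + σ))ᶜ = 0 := by
      have h3 : μ e (Set.Icc (p e) (p e + σ))ᶜ ≤ (ENNReal.ofReal (K / σ) •
        volume.restrict (Set.Icc (p e) (p e + σ))) (Set.Icc (p e) (p e + σ))ᶜ := hμ e _
      have h4 : (ENNReal.ofReal (K / σ) •
        (volume.restrict (Set.Icc (p e) (p e + σ)) : Measure ℝ))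
          (Set.Icc (p e) (p e + σ))ᶜ = 0 := by
        rw [Measure.smul_apply, Measure.restrict_apply measurableSet_Icc.compl]
        simp
      rw [h4] at h3
      exact le_antisymm h3 zero_le
    have h5 := (measurePreserving_eval μ e).quasiMeasurePreserving.ae (p := fun s =>
      s ∈ Set.Icc (p e) (p e + σ)) (by rw [ae_iff]; exact h2)
    exact h5
  have h6 := (ae_all_iff (μ := Measure.pi μ) (p := fun x e => x e ∈ Set.Icc (p e) (p e + σ))).2 h1
  exact h6

theorem lintegral_halvings (hn : 4 ≤ n) {k : ℕ} (hk : 2 * k = n)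
    (p : Fin n × Fin 3 → ℝ) (hp : ∀ e, p e ∈ Set.Icc (0 : ℝ) 1) (K σ : ℝ)
    (hσ : 0 < σ) (hσ1 : σ ≤ 1) (hμ : Noise μ p K σ) :
    ∫⁻ x, (halvings x : ℝ≥0∞) ∂(Measure.pi μ) ≤ ENNReal.ofReal (384 * K ^ 2 * (n : ℝ) ^ 2 / σ) := by
  classical
  have hK : 1 ≤ K := noise_one_le μ hσ hμ (⟨0, by omega⟩, 0)
  have hgood := ae_good μ (fun e t => noise_atom μ hμ e t)
  have hbox := noise_box μ hμ
  have hmI : ∀ (c : Fin 3) (i j l : Fin n) (S : Finset (Fin n)),
      Measurable ((Evt p σ c (k - S.card) i j l).indicator (fun _ => (1 : ℝ≥0∞))) :=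
    fun c i j l S => measurable_const.indicator (measurable_Evt p σ c (k - S.card) i j l)
  calc ∫⁻ x, (halvings x : ℝ≥0∞) ∂(Measure.pi μ)
      ≤ ∫⁻ x, ∑ c : Fin 3, ∑ i : Fin n, ∑ j ∈ Finset.univ.filter (fun j => i ≠ j),
        ∑ l ∈ Finset.univ.filter (fun l => l ≠ i ∧ l ≠ j),
        ∑ S ∈ ({i, j, l} : Finset (Fin n)).powerset,
          (Evt p σ c (k - S.card) i j l).indicator (fun _ => (1 : ℝ≥0∞)) x ∂(Measure.pi μ) := by
        apply lintegral_mono_ae
        filter_upwards [hgood, hbox] with x h1 h2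
        exact halvings_le h2 h1 hn hk
    _ = ∑ c : Fin 3, ∑ i : Fin n, ∑ j ∈ Finset.univ.filter (fun j => i ≠ j),
        ∑ l ∈ Finset.univ.filter (fun l => l ≠ i ∧ l ≠ j),
        ∑ S ∈ ({i, j, l} : Finset (Fin n)).powerset,
          Measure.pi μ (Evt p σ c (k - S.card) i j l) := by
        rw [lintegral_finsetSum _ (fun c _ => Finset.measurable_fun_sum _ fun i _ =>
          Finset.measurable_fun_sum _ fun j _ => Finset.measurable_fun_sum _ fun l _ =>
          Finset.measurable_fun_sum _ fun S _ => hmI c i j l S)]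
        refine Finset.sum_congr rfl fun c _ => ?_
        rw [lintegral_finsetSum _ (fun i _ => 
          Finset.measurable_fun_sum _ fun j _ => Finset.measurable_fun_sum _ fun l _ =>
          Finset.measurable_fun_sum _ fun S _ => hmI c i j l S)]
        refine Finset.sum_congr rfl fun i _ => ?_
        rw [lintegral_finsetSum _ (fun j _ => Finset.measurable_fun_sum _ fun l _ =>
          Finset.measurable_fun_sum _ fun S _ => hmI c i j l S)]
        refine Finset.sum_congr rfl fun j _ => ?_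
        rw [lintegral_finsetSum _ (fun l _ =>
          Finset.measurable_fun_sum _ fun S _ => hmI c i j l S)]
        refine Finset.sum_congr rfl fun l _ => ?_
        rw [lintegral_finsetSum _ (fun S _ => hmI c i j l S)]
        refine Finset.sum_congr rfl fun S _ => ?_
        rw [lintegral_indicator_const (measurable_Evt p σ c (k - S.card) i j l), one_mul]
    _ ≤ ∑ _c : Fin 3, ∑ i : Fin n, ∑ _j ∈ Finset.univ.filter (fun j => i ≠ j),
        8 * ENNReal.ofReal (16 * K ^ 2 / σ) := by
        refine Finset.sum_le_sum fun c _ => Finset.sum_le_sum fun i _ =>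
          Finset.sum_le_sum fun j hj => ?_
        have hij : i ≠ j := by simpa using hj
        have h1 : ∀ l ∈ Finset.univ.filter (fun l => l ≠ i ∧ l ≠ j),
            ∑ S ∈ ({i, j, l} : Finset (Fin n)).powerset,
              Measure.pi μ (Evt p σ c (k - S.card) i j l) =
            ∑ s ∈ Finset.range 4, (Nat.choose 3 s : ℝ≥0∞) *
              Measure.pi μ (Evt p σ c (k - s) i j l) := by
          intro l hl
          simp only [Finset.mem_filter, Finset.mem_univ, true_and] at hl
          have hcard : ({i, j, l} : Finset (Fin n)).card = 3 := by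
            rw [Finset.card_eq_three]
            exact ⟨i, j, l, hij, hl.1.symm, hl.2.symm, rfl⟩
          rw [Finset.sum_powerset_apply_card
            (fun s => Measure.pi μ (Evt p σ c (k - s) i j l)), hcard]
          simp only [nsmul_eq_mul]
        rw [Finset.sum_congr rfl h1, Finset.sum_comm]
        calc ∑ s ∈ Finset.range 4, ∑ l ∈ Finset.univ.filter (fun l => l ≠ i ∧ l ≠ j),
              (Nat.choose 3 s : ℝ≥0∞) * Measure.pi μ (Evt p σ c (k - s) i j l)
            ≤ ∑ s ∈ Finset.range 4, (Nat.choose 3 s : ℝ≥0∞) * ENNReal.ofReal (16 * K ^ 2 / σ) := by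
              refine Finset.sum_le_sum fun s _ => ?_
              rw [← Finset.mul_sum]
              gcongr
              exact sum_events_le μ p hp K σ (by linarith) hσ hσ1 hμ c (k - s) i j hij
          _ = 8 * ENNReal.ofReal (16 * K ^ 2 / σ) := by
              rw [← Finset.sum_mul]
              congr 1
              simp only [Finset.sum_range_succ, Finset.sum_range_zero]
              norm_num [Nat.choose]
    _ ≤ ∑ _c : Fin 3, ∑ _i : Fin n, (n : ℝ≥0∞) * (8 * ENNReal.ofReal (16 * K ^ 2 / σ)) := by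
        refine Finset.sum_le_sum fun c _ => Finset.sum_le_sum fun i _ => ?_
        rw [Finset.sum_const, nsmul_eq_mul]
        gcongr
        calc (Finset.univ.filter (fun j => i ≠ j)).card ≤ (Finset.univ : Finset (Fin n)).card :=
              Finset.card_le_card (Finset.filter_subset _ _)
          _ = n := by simp
    _ = 3 * ((n : ℝ≥0∞) * ((n : ℝ≥0∞) * (8 * ENNReal.ofReal (16 * K ^ 2 / σ)))) := by
        rw [Finset.sum_const, Finset.sum_const]
        simp
    _ = ENNReal.ofReal (384 * K ^ 2 * (n : ℝ) ^ 2 / σ) := by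
        have e1 : (n : ℝ≥0∞) = ENNReal.ofReal (n : ℝ) := by simp
        have e2 : (3 : ℝ≥0∞) = ENNReal.ofReal 3 := by simp
        have e3 : (8 : ℝ≥0∞) = ENNReal.ofReal 8 := by simp
        rw [e1, e2, e3, ← ENNReal.ofReal_mul (by norm_num), ← ENNReal.ofReal_mul (by positivity),
          ← ENNReal.ofReal_mul (by positivity), ← ENNReal.ofReal_mul (by norm_num)]
        congr 1
        ring

end Pool.Agent.SmH
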