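import Pool.Agent.SmH.Basic

/-!
# Almost every perturbed configuration is good
-/

open MeasureTheory Function
open scoped ENNReal

namespace Pool.Agent.SmH

theorem add_two_ne_add_one : ∀ c : Fin 3, c + 2 ≠ c + 1 := by decide
theorem add_one_ne_self' : ∀ c : Fin 3, c + 1 ≠ c := by decide
theorem add_two_ne_self : ∀ c : Fin 3, c + 2 ≠ c := by decide

section
variable {ι : Type*} [Fintype ι] [DecidableEq ι]

theorem graph_null (μ : ι → Measure ℝ) [∀ i, IsProbabilityMeasure (μ i)] (e : ι)
    (hno : ∀ t : ℝ, μ e {t} = 0) (g : (ι → ℝ) → ℝ) (hg : Measurable g)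
    (hinv : ∀ x t, g (update x e t) = g x) :
    Measure.pi μ {x | x e = g x} = 0 := by
  have hm : MeasurableSet {x : ι → ℝ | x e = g x} :=
    measurableSet_eq_fun (measurable_pi_apply e) hg
  have h1 : Measure.pi μ {x | x e = g x} =
      ∫⁻ x, ({x : ι → ℝ | x e = g x}.indicator (fun _ => (1 : ℝ≥0∞))) x ∂Measure.pi μ := by
    rw [lintegral_indicator_const hm, one_mul]
  have h2 : ∫⁻ x, ({x : ι → ℝ | x e = g x}.indicator (fun _ => (1 : ℝ≥0∞))) x ∂Measure.pi μ ≤
      ∫⁻ _, (0 : ℝ≥0∞) ∂Measure.pi μ := by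
    refine lintegral_le_of_lmarginal_le {e} ((measurable_const).indicator hm) measurable_const ?_
    intro x
    rw [lmarginal_singleton, lmarginal_singleton]
    simp only [lintegral_zero, nonpos_iff_eq_zero]
    have : (fun t => ({x : ι → ℝ | x e = g x}.indicator (fun _ => (1 : ℝ≥0∞))) (update x e t)) =
        ({g x} : Set ℝ).indicator (fun _ => (1 : ℝ≥0∞)) := by
      funext t
      simp only [Set.indicator, Set.mem_setOf_eq, update_self, hinv, Set.mem_singleton_iff]
    rw [this, lintegral_indicator_const (measurableSet_singleton _), one_mul, hno]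
  rw [h1]
  simpa using h2

end

variable {n : ℕ}

theorem D_eq (c : Fin 3) (x : Fin n × Fin 3 → ℝ) (i j k : Fin n) :
    D c x i j k = (x (i, c + 1) - x (j, c + 1)) * (x (j, c + 2) - x (k, c + 2)) -
      (x (j, c + 1) - x (k, c + 1)) * (x (i, c + 2) - x (j, c + 2)) := by
  unfold D; ring

theorem measurable_coord (e : Fin n × Fin 3) :
    Measurable (fun x : Fin n × Fin 3 → ℝ => x e) := measurable_pi_apply e

theorem measurable_D (c : Fin 3) (i j k : Fin n) :
    Measurable (fun x : Fin n × Fin 3 → ℝ => D c x i j k) := by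
  unfold D
  fun_prop

theorem measurable_aT (c : Fin 3) (i j k : Fin n) :
    Measurable (fun x : Fin n × Fin 3 → ℝ => aT c x i j k) := by
  unfold aT
  refine Measurable.div ?_ (measurable_D c i j k)
  fun_prop

theorem measurable_bT (c : Fin 3) (i j k : Fin n) :
    Measurable (fun x : Fin n × Fin 3 → ℝ => bT c x i j k) := by
  unfold bT
  refine Measurable.div ?_ (measurable_D c i j k)
  fun_prop

theorem measurable_hgt_aT (c : Fin 3) (i j k l : Fin n) :
    Measurable (fun x : Fin n × Fin 3 → ℝ => hgt c x (aT c x i j k) (bT c x i j k) l) := by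
  unfold hgt
  have := measurable_aT c i j k
  have := measurable_bT c i j k
  fun_prop

variable (μ : Fin n × Fin 3 → Measure ℝ) [∀ i, IsProbabilityMeasure (μ i)]

theorem ae_ne (hno : ∀ e t, μ e {t} = 0) (e e' : Fin n × Fin 3) (h : e ≠ e') :
    ∀ᵐ x ∂(Measure.pi μ), x e ≠ x e' := by
  rw [ae_iff]
  have := graph_null μ e (hno e) (fun x => x e') (measurable_pi_apply e')
    (fun x t => by simp [update_of_ne h.symm])
  simpa using this

theorem ae_D (hno : ∀ e t, μ e {t} = 0) (c : Fin 3) (i j k : Fin n) (hij : i ≠ j) (hik : i ≠ k)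
    (hjk : j ≠ k) : ∀ᵐ x ∂(Measure.pi μ), D c x i j k ≠ 0 := by
  have h1 := ae_ne μ hno (j, c + 2) (k, c + 2) (by simp [hjk])
  have h2 : ∀ᵐ x ∂(Measure.pi μ), x (i, c + 1) ≠ x (k, c + 1) +
      (x (j, c + 1) - x (k, c + 1)) * (x (i, c + 2) - x (k, c + 2)) /
        (x (j, c + 2) - x (k, c + 2)) := by
    rw [ae_iff]
    have := graph_null μ (i, c + 1) (hno _) (fun x => x (k, c + 1) +
      (x (j, c + 1) - x (k, c + 1)) * (x (i, c + 2) - x (k, c + 2)) /
        (x (j, c + 2) - x (k, c + 2))) (by fun_prop) ?_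
    · simpa using this
    · intro x t
      have e1 : ((k, c + 1) : Fin n × Fin 3) ≠ (i, c + 1) := by simp [hik.symm]
      have e2 : ((j, c + 1) : Fin n × Fin 3) ≠ (i, c + 1) := by simp [hij.symm]
      have e3 : ((i, c + 2) : Fin n × Fin 3) ≠ (i, c + 1) := by
        intro h
        exact add_two_ne_add_one c (congrArg Prod.snd h)
      have e4 : ((k, c + 2) : Fin n × Fin 3) ≠ (i, c + 1) := by simp [hik.symm]
      have e5 : ((j, c + 2) : Fin n × Fin 3) ≠ (i, c + 1) := by simp [hij.symm]
      simp only [update_of_ne e1, update_of_ne e2, update_of_ne e3, update_of_ne e4,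
        update_of_ne e5]
  filter_upwards [h1, h2] with x hx1 hx2 hD
  apply hx2
  have hy : x (j, c + 2) - x (k, c + 2) ≠ 0 := sub_ne_zero.2 hx1
  unfold D at hD
  field_simp
  linarith

theorem ae_hgt (hno : ∀ e t, μ e {t} = 0) (c : Fin 3) (i j k l : Fin n)
    (hli : l ≠ i) (hlj : l ≠ j) (hlk : l ≠ k) :
    ∀ᵐ x ∂(Measure.pi μ),
      hgt c x (aT c x i j k) (bT c x i j k) l ≠ hgt c x (aT c x i j k) (bT c x i j k) k := by
  have ha := measurable_aT c i j k
  have hb := measurable_bT c i j k
  have h2 : ∀ᵐ x ∂(Measure.pi μ), x (l, c) ≠ aT c x i j k * x (l, c + 1) +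
      bT c x i j k * x (l, c + 2) + hgt c x (aT c x i j k) (bT c x i j k) k := by
    rw [ae_iff]
    have := graph_null μ (l, c) (hno _) (fun x => aT c x i j k * x (l, c + 1) +
      bT c x i j k * x (l, c + 2) + hgt c x (aT c x i j k) (bT c x i j k) k)
      (by have := measurable_hgt_aT c i j k k; fun_prop) ?_
    · simpa using this
    · intro x t
      have e1 : ∀ d : Fin 3, ((i, d) : Fin n × Fin 3) ≠ (l, c) := fun d => by
        intro h; exact hli (congrArg Prod.fst h).symm
      have e2 : ∀ d : Fin 3, ((j, d) : Fin n × Fin 3) ≠ (l, c) := fun d => by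
        intro h; exact hlj (congrArg Prod.fst h).symm
      have e3 : ∀ d : Fin 3, ((k, d) : Fin n × Fin 3) ≠ (l, c) := fun d => by
        intro h; exact hlk (congrArg Prod.fst h).symm
      have e4 : ((l, c + 1) : Fin n × Fin 3) ≠ (l, c) := by
        intro h
        exact add_one_ne_self' c (congrArg Prod.snd h)
      have e5 : ((l, c + 2) : Fin n × Fin 3) ≠ (l, c) := by
        intro h
        exact add_two_ne_self c (congrArg Prod.snd h)
      simp only [aT, bT, D, hgt, update_of_ne (e1 _), update_of_ne (e2 _), update_of_ne (e3 _),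
        update_of_ne e4, update_of_ne e5]
  filter_upwards [h2] with x hx h
  apply hx
  rw [← h]
  unfold hgt
  ring

theorem ae_good (hno : ∀ e t, μ e {t} = 0) : ∀ᵐ x ∂(Measure.pi μ), Good x := by
  have h1 : ∀ᵐ x ∂(Measure.pi μ), ∀ c i j k, i ≠ j → i ≠ k → j ≠ k → D c x i j k ≠ 0 := by
    rw [ae_all_iff]; intro c
    rw [ae_all_iff]; intro i
    rw [ae_all_iff]; intro j
    rw [ae_all_iff]; intro k
    by_cases hij : i = j
    · exact Filter.Eventually.of_forall (fun x h => absurd hij h)
    by_cases hik : i = k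
    · exact Filter.Eventually.of_forall (fun x _ h => absurd hik h)
    by_cases hjk : j = k
    · exact Filter.Eventually.of_forall (fun x _ _ h => absurd hjk h)
    filter_upwards [ae_D μ hno c i j k hij hik hjk] with x hx _ _ _
    exact hx
  have h2 : ∀ᵐ x ∂(Measure.pi μ), ∀ c i j k l, i ≠ j → i ≠ k → j ≠ k → l ≠ i → l ≠ j → l ≠ k →
    hgt c x (aT c x i j k) (bT c x i j k) l ≠ hgt c x (aT c x i j k) (bT c x i j k) k := by
    rw [ae_all_iff]; intro c
    rw [ae_all_iff]; intro i
    rw [ae_all_iff]; intro j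
    rw [ae_all_iff]; intro k
    rw [ae_all_iff]; intro l
    by_cases hli : l = i
    · exact Filter.Eventually.of_forall (fun x _ _ _ h => absurd hli h)
    by_cases hlj : l = j
    · exact Filter.Eventually.of_forall (fun x _ _ _ _ h => absurd hlj h)
    by_cases hlk : l = k
    · exact Filter.Eventually.of_forall (fun x _ _ _ _ _ h => absurd hlk h)
    filter_upwards [ae_hgt μ hno c i j k l hli hlj hlk] with x hx _ _ _ _ _ _
    exact hx
  filter_upwards [h1, h2] with x hx1 hx2
  exact ⟨hx1, hx2⟩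

end Pool.Agent.SmH
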