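import Pool.Agent.SmH.Slice

/-!
# The rank of a point and the two-dimensional slices
-/

open MeasureTheory Function
open scoped ENNReal

namespace Pool.Agent.SmH

variable {n : ℕ}

/-- Number of points other than `i, j, k` which lie above the plane with slopes `a, b` through the
point `k`; ties are broken by the index. -/
noncomputable def rk (c : Fin 3) (x : Fin n × Fin 3 → ℝ) (a b : ℝ) (i j k : Fin n) : ℕ :=
  (Finset.univ.filter (fun l => l ≠ i ∧ l ≠ j ∧ l ≠ k ∧
    (hgt c x a b k < hgt c x a b l ∨ (hgt c x a b l = hgt c x a b k ∧ l < k)))).card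

theorem rk_lt {c : Fin 3} {x : Fin n × Fin 3 → ℝ} {a b : ℝ} {i j k k' : Fin n}
    (hi : k' ≠ i) (hj : k' ≠ j) (hkk : k' ≠ k)
    (h : hgt c x a b k < hgt c x a b k' ∨ (hgt c x a b k' = hgt c x a b k ∧ k' < k)) :
    rk c x a b i j k' < rk c x a b i j k := by
  unfold rk
  apply Finset.card_lt_card
  rw [Finset.ssubset_iff_of_subset]
  · exact ⟨k', by simp [hi, hj, hkk, h], by simp⟩
  · intro l hl
    simp only [Finset.mem_filter, Finset.mem_univ, true_and] at hl ⊢
    obtain ⟨h1, h2, h3, h4⟩ := hl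
    refine ⟨h1, h2, ?_, ?_⟩
    · rintro rfl
      rcases h with h | ⟨h, h'⟩ <;> rcases h4 with h4 | ⟨h4, h4'⟩
      · linarith
      · linarith
      · linarith
      · exact absurd (h'.trans h4') (lt_irrefl _)
    · rcases h with h | ⟨h, h'⟩ <;> rcases h4 with h4 | ⟨h4, h4'⟩
      · left; linarith
      · left; linarith
      · left; linarith
      · right; exact ⟨h4.trans h, h4'.trans h'⟩

theorem rk_inj {c : Fin 3} {x : Fin n × Fin 3 → ℝ} {a b : ℝ} {i j k k' : Fin n}
    (hi : k ≠ i) (hj : k ≠ j) (hi' : k' ≠ i) (hj' : k' ≠ j)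
    (h : rk c x a b i j k = rk c x a b i j k') : k = k' := by
  by_contra hne
  rcases lt_trichotomy (hgt c x a b k) (hgt c x a b k') with h1 | h1 | h1
  · have := rk_lt (c := c) (x := x) (a := a) (b := b) hi' hj' (Ne.symm hne) (Or.inl h1)
    omega
  · rcases lt_or_gt_of_ne hne with h2 | h2
    · have := rk_lt (c := c) (x := x) (a := a) (b := b) hi hj hne (Or.inr ⟨h1, h2⟩)
      omega
    · have := rk_lt (c := c) (x := x) (a := a) (b := b) hi' hj' (Ne.symm hne)
        (Or.inr ⟨h1.symm, h2⟩)
      omega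
  · have := rk_lt (c := c) (x := x) (a := a) (b := b) hi hj hne (Or.inl h1)
    omega

theorem measurable_card_filter {Ω : Type*} [MeasurableSpace Ω] (P : Fin n → Ω → Prop)
    [∀ l ω, Decidable (P l ω)] (hP : ∀ l, MeasurableSet {ω | P l ω}) :
    Measurable (fun ω => (Finset.univ.filter (fun l => P l ω)).card) := by
  have : (fun ω => (Finset.univ.filter (fun l => P l ω)).card) =
      fun ω => ∑ l, if P l ω then 1 else 0 := by
    funext ω
    rw [Finset.card_filter]
  rw [this]
  apply Finset.measurable_fun_sum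
  intro l _
  exact Measurable.ite (hP l) measurable_const measurable_const

theorem measurable_rk {Ω : Type*} [MeasurableSpace Ω] (c : Fin 3) (i j k : Fin n)
    (X : Ω → (Fin n × Fin 3 → ℝ)) (a b : Ω → ℝ) (hX : Measurable X) (ha : Measurable a)
    (hb : Measurable b) : Measurable (fun ω => rk c (X ω) (a ω) (b ω) i j k) := by
  have hh : ∀ l, Measurable (fun ω => hgt c (X ω) (a ω) (b ω) l) := by
    intro l
    unfold hgt
    have h1 : ∀ e, Measurable (fun ω => X ω e) := fun e => (measurable_pi_apply e).comp hX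
    exact ((h1 _).sub (ha.mul (h1 _))).sub (hb.mul (h1 _))
  unfold rk
  apply measurable_card_filter
  intro l
  by_cases h1 : l ≠ i
  · by_cases h2 : l ≠ j
    · by_cases h3 : l ≠ k
      · by_cases h4 : l < k
        · simp only [h1, h2, h3, h4, not_false_eq_true, ne_eq, true_and, and_true]
          exact (measurableSet_lt (hh k) (hh l)).union (measurableSet_eq_fun (hh l) (hh k))
        · simp only [h1, h2, h3, h4, not_false_eq_true, ne_eq, true_and, and_false, or_false]
          exact measurableSet_lt (hh k) (hh l)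
      · simp [h3]
    · simp [h2]
  · simp [h1]

/-- The box of the perturbed configurations. -/
def Box (p : Fin n × Fin 3 → ℝ) (σ : ℝ) : Set (Fin n × Fin 3 → ℝ) :=
  {x | ∀ e, x e ∈ Set.Icc (p e) (p e + σ)}

theorem measurable_Box (p : Fin n × Fin 3 → ℝ) (σ : ℝ) : MeasurableSet (Box p σ) := by
  have : Box p σ = Set.pi Set.univ (fun e => Set.Icc (p e) (p e + σ)) := by
    ext x
    exact ⟨fun h e _ => h e, fun h e => h e (Set.mem_univ e)⟩
  rw [this]
  exact MeasurableSet.univ_pi (fun e => measurableSet_Icc)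

/-- The event that the plane through `i, j, k` is a graph over the axes other than `c`, with
slopes at most one, and has exactly `m` points above it. -/
def Evt (p : Fin n × Fin 3 → ℝ) (σ : ℝ) (c : Fin 3) (m : ℕ) (i j k : Fin n) :
    Set (Fin n × Fin 3 → ℝ) :=
  {x | x ∈ Box p σ ∧ D c x i j k ≠ 0 ∧ |aT c x i j k| ≤ 1 ∧ |bT c x i j k| ≤ 1 ∧
    rk c x (aT c x i j k) (bT c x i j k) i j k = m}

theorem measurable_Evt (p : Fin n × Fin 3 → ℝ) (σ : ℝ) (c : Fin 3) (m : ℕ) (i j k : Fin n) :
    MeasurableSet (Evt p σ c m i j k) := by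
  have ha := measurable_aT c i j k
  have hb := measurable_bT c i j k
  have hD := measurable_D c i j k
  have hr := measurable_rk c i j k (fun x => x) _ _ measurable_id ha hb
  refine (measurable_Box p σ).inter ?_
  refine MeasurableSet.inter (measurableSet_eq_fun hD measurable_const).compl ?_
  refine MeasurableSet.inter (measurableSet_le (ha.abs) measurable_const) ?_
  refine MeasurableSet.inter (measurableSet_le (hb.abs) measurable_const) ?_
  exact measurableSet_eq_fun hr measurable_const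

/-- The set of slopes belonging to the slice. -/
def Slopes (p : Fin n × Fin 3 → ℝ) (σ : ℝ) (c : Fin 3) (m : ℕ) (x : Fin n × Fin 3 → ℝ)
    (i j k : Fin n) : Set (ℝ × ℝ) :=
  {q | (|q.1| ≤ 1 ∧ |q.2| ≤ 1 ∧ |q.1 * (x (i, c + 1) - x (j, c + 1)) +
      q.2 * (x (i, c + 2) - x (j, c + 2)) - (p (i, c) - p (j, c))| ≤ σ) ∧
      rk c x q.1 q.2 i j k = m}

theorem measurable_Slopes (p : Fin n × Fin 3 → ℝ) (σ : ℝ) (c : Fin 3) (m : ℕ)
    (x : Fin n × Fin 3 → ℝ) (i j k : Fin n) : MeasurableSet (Slopes p σ c m x i j k) := by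
  refine MeasurableSet.inter (measurable_strip _ _ _ σ) ?_
  have hr := measurable_rk c i j k (fun _ : ℝ × ℝ => x) (fun q => q.1) (fun q => q.2)
    measurable_const measurable_fst measurable_snd
  exact measurableSet_eq_fun hr measurable_const

/-- Change the two heights. -/
def upd (c : Fin 3) (x : Fin n × Fin 3 → ℝ) (i j : Fin n) (q : ℝ × ℝ) : Fin n × Fin 3 → ℝ :=
  update (update x (j, c) q.1) (i, c) q.2

theorem measurable_upd (c : Fin 3) (x : Fin n × Fin 3 → ℝ) (i j : Fin n) :
    Measurable (upd c x i j) := by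
  rw [measurable_pi_iff]
  intro e
  unfold upd
  by_cases h1 : e = (i, c)
  · subst h1
    simp only [update_self]
    exact measurable_snd
  · simp only [update_of_ne h1]
    by_cases h2 : e = (j, c)
    · subst h2
      simp only [update_self]
      exact measurable_fst
    · simp only [update_of_ne h2]
      exact measurable_const

theorem upd_other (c : Fin 3) (x : Fin n × Fin 3 → ℝ) (i j : Fin n) (q : ℝ × ℝ)
    (e : Fin n × Fin 3) (h1 : e ≠ (i, c)) (h2 : e ≠ (j, c)) : upd c x i j q e = x e := by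
  unfold upd
  rw [update_of_ne h1, update_of_ne h2]

theorem upd_1 (c : Fin 3) (x : Fin n × Fin 3 → ℝ) (i j l : Fin n) (q : ℝ × ℝ) :
    upd c x i j q (l, c + 1) = x (l, c + 1) := by
  apply upd_other
  · intro h
    exact add_one_ne_self' c (congrArg Prod.snd h)
  · intro h
    exact add_one_ne_self' c (congrArg Prod.snd h)

theorem upd_2 (c : Fin 3) (x : Fin n × Fin 3 → ℝ) (i j l : Fin n) (q : ℝ × ℝ) :
    upd c x i j q (l, c + 2) = x (l, c + 2) := by
  apply upd_other
  · intro h
    exact add_two_ne_self c (congrArg Prod.snd h)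
  · intro h
    exact add_two_ne_self c (congrArg Prod.snd h)

theorem upd_i (c : Fin 3) (x : Fin n × Fin 3 → ℝ) (i j : Fin n) (q : ℝ × ℝ) :
    upd c x i j q (i, c) = q.2 := by
  unfold upd
  rw [update_self]

theorem upd_j (c : Fin 3) (x : Fin n × Fin 3 → ℝ) (i j : Fin n) (hij : i ≠ j) (q : ℝ × ℝ) :
    upd c x i j q (j, c) = q.1 := by
  unfold upd
  rw [update_of_ne (by simp [hij.symm]), update_self]

theorem upd_l (c : Fin 3) (x : Fin n × Fin 3 → ℝ) (i j l : Fin n) (hi : l ≠ i) (hj : l ≠ j)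
    (q : ℝ × ℝ) : upd c x i j q (l, c) = x (l, c) := by
  apply upd_other
  · simp [hi]
  · simp [hj]

theorem D_upd (c : Fin 3) (x : Fin n × Fin 3 → ℝ) (i j k : Fin n) (q : ℝ × ℝ) :
    D c (upd c x i j q) i j k = D c x i j k := by
  simp only [D, upd_1, upd_2]

theorem hgt_upd (c : Fin 3) (x : Fin n × Fin 3 → ℝ) (i j l : Fin n) (hi : l ≠ i) (hj : l ≠ j)
    (q : ℝ × ℝ) (a b : ℝ) : hgt c (upd c x i j q) a b l = hgt c x a b l := by
  simp only [hgt, upd_1, upd_2, upd_l c x i j l hi hj]

theorem rk_upd (c : Fin 3) (x : Fin n × Fin 3 → ℝ) (i j k : Fin n) (hi : k ≠ i) (hj : k ≠ j)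
    (q : ℝ × ℝ) (a b : ℝ) : rk c (upd c x i j q) a b i j k = rk c x a b i j k := by
  unfold rk
  congr 1
  apply Finset.filter_congr
  intro l _
  by_cases h1 : l = i
  · simp [h1]
  by_cases h2 : l = j
  · simp [h2]
  rw [hgt_upd c x i j l h1 h2, hgt_upd c x i j k hi hj]

/-- The affine map from slopes to heights. -/
noncomputable def lin (c : Fin 3) (x : Fin n × Fin 3 → ℝ) (i j k : Fin n) : ℝ × ℝ →ₗ[ℝ] ℝ × ℝ :=
  Matrix.toLin (Module.Basis.finTwoProd ℝ) (Module.Basis.finTwoProd ℝ)
    !![x (j, c + 1) - x (k, c + 1), x (j, c + 2) - x (k, c + 2);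
       x (i, c + 1) - x (k, c + 1), x (i, c + 2) - x (k, c + 2)]

theorem lin_apply (c : Fin 3) (x : Fin n × Fin 3 → ℝ) (i j k : Fin n) (q : ℝ × ℝ) :
    lin c x i j k q = ((x (j, c + 1) - x (k, c + 1)) * q.1 + (x (j, c + 2) - x (k, c + 2)) * q.2,
      (x (i, c + 1) - x (k, c + 1)) * q.1 + (x (i, c + 2) - x (k, c + 2)) * q.2) := by
  unfold lin
  rw [Matrix.toLin_finTwoProd_apply]

theorem det_lin (c : Fin 3) (x : Fin n × Fin 3 → ℝ) (i j k : Fin n) :
    |LinearMap.det (lin c x i j k)| = |D c x i j k| := by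
  unfold lin
  rw [LinearMap.det_toLin, Matrix.det_fin_two_of]
  rw [← abs_neg]
  congr 1
  unfold D
  ring

/-- A slice of the event has at most the area of the set of slopes times the determinant. -/
theorem slice_le (p : Fin n × Fin 3 → ℝ) (σ : ℝ) (c : Fin 3) (m : ℕ) (x : Fin n × Fin 3 → ℝ)
    (i j k : Fin n) (hij : i ≠ j) (hi : k ≠ i) (hj : k ≠ j) :
    volume {q : ℝ × ℝ | upd c x i j q ∈ Evt p σ c m i j k} ≤
      ENNReal.ofReal |D c x i j k| * volume (Slopes p σ c m x i j k) := by
  have hsub : {q : ℝ × ℝ | upd c x i j q ∈ Evt p σ c m i j k} ⊆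
      (fun v : ℝ × ℝ => (x (k, c), x (k, c)) + v) ''
        (lin c x i j k '' (Slopes p σ c m x i j k)) := by
    rintro q ⟨hb, hD, ha1, hb1, hr⟩
    set a := aT c (upd c x i j q) i j k with ha
    set b := bT c (upd c x i j q) i j k with hb'
    obtain ⟨h1, h2⟩ := cramer' hD
    rw [← ha, ← hb'] at h1 h2
    rw [hgt_upd c x i j k hi hj] at h1 h2
    simp only [hgt, upd_1, upd_2, upd_i, upd_j c x i j hij] at h1 h2
    refine ⟨lin c x i j k (a, b), ⟨(a, b), ⟨⟨ha1, hb1, ?_⟩, ?_⟩, rfl⟩, ?_⟩
    · have hi1 := hb (i, c)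
      have hj1 := hb (j, c)
      rw [upd_i] at hi1
      rw [upd_j c x i j hij] at hj1
      have e : a * (x (i, c + 1) - x (j, c + 1)) + b * (x (i, c + 2) - x (j, c + 2)) =
        q.2 - q.1 := by linarith
      show |a * (x (i, c + 1) - x (j, c + 1)) + b * (x (i, c + 2) - x (j, c + 2)) -
        (p (i, c) - p (j, c))| ≤ σ
      rw [e, abs_le]
      have := hi1.1
      have := hi1.2
      have := hj1.1
      have := hj1.2
      constructor <;> linarith
    · rw [rk_upd c x i j k hi hj] at hr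
      exact hr
    · rw [lin_apply]
      ext
      · simp only [Prod.fst_add]
        linarith
      · simp only [Prod.snd_add]
        linarith
  calc volume {q : ℝ × ℝ | upd c x i j q ∈ Evt p σ c m i j k}
      ≤ volume ((fun v : ℝ × ℝ => (x (k, c), x (k, c)) + v) ''
        (lin c x i j k '' (Slopes p σ c m x i j k))) := measure_mono hsub
    _ = volume (lin c x i j k '' (Slopes p σ c m x i j k)) := by
        rw [Set.image_add_left, measure_preimage_add]
    _ = ENNReal.ofReal |D c x i j k| * volume (Slopes p σ c m x i j k) := by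
        rw [Measure.addHaar_image_linearMap, det_lin]

end Pool.Agent.SmH
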