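import Pool.Agent.SmH.Null

/-!
# The planar estimate: two free heights
-/

open MeasureTheory Function
open scoped ENNReal

namespace Pool.Agent.SmH

/-! ### Area of a strip in the square of slopes -/

theorem measurable_strip (α β δ σ : ℝ) :
    MeasurableSet {p : ℝ × ℝ | |p.1| ≤ 1 ∧ |p.2| ≤ 1 ∧ |p.1 * α + p.2 * β - δ| ≤ σ} := by
  apply IsClosed.measurableSet
  exact (isClosed_le (f := fun p : ℝ × ℝ => |p.1|) (g := fun _ => (1 : ℝ)) (by fun_prop)
      (by fun_prop)).inter
    ((isClosed_le (f := fun p : ℝ × ℝ => |p.2|) (g := fun _ => (1 : ℝ)) (by fun_prop)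
      (by fun_prop)).inter
    (isClosed_le (f := fun p : ℝ × ℝ => |p.1 * α + p.2 * β - δ|) (g := fun _ => σ)
      (by fun_prop) (by fun_prop)))

theorem vol_strip_aux (α β δ σ : ℝ) (hσ : 0 < σ) (hα : α ≠ 0) (hβ : |β| ≤ |α|) :
    volume {p : ℝ × ℝ | |p.1| ≤ 1 ∧ |p.2| ≤ 1 ∧ |p.1 * α + p.2 * β - δ| ≤ σ} *
      ENNReal.ofReal (2 * (|α| + |β|)) ≤ ENNReal.ofReal (16 * σ) := by
  have hα' : 0 < |α| := abs_pos.2 hα
  have hm := measurable_strip α β δ σ
  have h1 : volume {p : ℝ × ℝ | |p.1| ≤ 1 ∧ |p.2| ≤ 1 ∧ |p.1 * α + p.2 * β - δ| ≤ σ} ≤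
      ENNReal.ofReal (2 * (σ / |α|)) * ENNReal.ofReal 2 := by
    rw [Measure.volume_eq_prod, Measure.prod_apply_symm hm]
    calc ∫⁻ y, volume ((fun z => (z, y)) ⁻¹'
          {p : ℝ × ℝ | |p.1| ≤ 1 ∧ |p.2| ≤ 1 ∧ |p.1 * α + p.2 * β - δ| ≤ σ})
        ≤ ∫⁻ y, (Set.Icc (-1 : ℝ) 1).indicator
            (fun _ => ENNReal.ofReal (2 * (σ / |α|))) y := by
          apply lintegral_mono
          intro y
          by_cases hy : y ∈ Set.Icc (-1 : ℝ) 1
          · simp only [Set.indicator_of_mem hy]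
            calc volume ((fun z => (z, y)) ⁻¹'
                  {p : ℝ × ℝ | |p.1| ≤ 1 ∧ |p.2| ≤ 1 ∧ |p.1 * α + p.2 * β - δ| ≤ σ})
                ≤ volume (Metric.closedBall ((δ - y * β) / α) (σ / |α|)) := by
                  apply measure_mono
                  intro z hz
                  have h3 : |z * α + y * β - δ| ≤ σ := hz.2.2
                  rw [Metric.mem_closedBall, Real.dist_eq, le_div_iff₀ hα', ← abs_mul]
                  have : (z - (δ - y * β) / α) * α = z * α + y * β - δ := by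
                    field_simp
                    ring
                  rw [this]
                  exact h3
              _ = ENNReal.ofReal (2 * (σ / |α|)) := Real.volume_closedBall _ _
          · simp only [Set.indicator_of_notMem hy]
            have : ((fun z => (z, y)) ⁻¹'
                  {p : ℝ × ℝ | |p.1| ≤ 1 ∧ |p.2| ≤ 1 ∧ |p.1 * α + p.2 * β - δ| ≤ σ}) = ∅ := by
              rw [Set.eq_empty_iff_forall_notMem]
              intro z hz
              exact hy (abs_le.1 hz.2.1)
            rw [this]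
            simp
      _ = ENNReal.ofReal (2 * (σ / |α|)) * ENNReal.ofReal 2 := by
          rw [lintegral_indicator_const measurableSet_Icc, Real.volume_Icc]
          norm_num
  calc _ ≤ (ENNReal.ofReal (2 * (σ / |α|)) * ENNReal.ofReal 2) *
        ENNReal.ofReal (2 * (|α| + |β|)) := by gcongr
    _ = ENNReal.ofReal (2 * (σ / |α|) * 2 * (2 * (|α| + |β|))) := by
        rw [← ENNReal.ofReal_mul (by positivity), ← ENNReal.ofReal_mul (by positivity)]
    _ ≤ ENNReal.ofReal (16 * σ) := by
        apply ENNReal.ofReal_le_ofReal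
        calc 2 * (σ / |α|) * 2 * (2 * (|α| + |β|)) ≤ 2 * (σ / |α|) * 2 * (2 * (|α| + |α|)) := by
              gcongr
          _ = 16 * σ := by field_simp; ring

theorem vol_strip (α β δ σ : ℝ) (hσ : 0 < σ) :
    volume {p : ℝ × ℝ | |p.1| ≤ 1 ∧ |p.2| ≤ 1 ∧ |p.1 * α + p.2 * β - δ| ≤ σ} *
      ENNReal.ofReal (2 * (|α| + |β|)) ≤ ENNReal.ofReal (16 * σ) := by
  rcases le_total |β| |α| with h | h
  · by_cases hα : α = 0
    · have hβ : β = 0 := by
        rw [hα, abs_zero] at h
        exact abs_nonpos_iff.1 h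
      simp [hα, hβ]
    · exact vol_strip_aux α β δ σ hσ hα h
  · by_cases hβ : β = 0
    · have hα : α = 0 := by
        rw [hβ, abs_zero] at h
        exact abs_nonpos_iff.1 h
      simp [hα, hβ]
    · have h1 := vol_strip_aux β α δ σ hσ hβ h
      have h2 : volume {p : ℝ × ℝ | |p.1| ≤ 1 ∧ |p.2| ≤ 1 ∧ |p.1 * α + p.2 * β - δ| ≤ σ} =
          volume {p : ℝ × ℝ | |p.1| ≤ 1 ∧ |p.2| ≤ 1 ∧ |p.1 * β + p.2 * α - δ| ≤ σ} := by
        have hsw : MeasurePreserving (Prod.swap : ℝ × ℝ → ℝ × ℝ) volume volume := by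
          have := Measure.measurePreserving_swap (μ := (volume : Measure ℝ))
            (ν := (volume : Measure ℝ))
          simpa [Measure.volume_eq_prod] using this
        rw [← hsw.measure_preimage (measurable_strip β α δ σ).nullMeasurableSet]
        congr 1
        ext p
        constructor
        · rintro ⟨a, b, c⟩
          exact ⟨b, a, by simpa [add_comm] using c⟩
        · rintro ⟨a, b, c⟩
          exact ⟨b, a, by simpa [add_comm] using c⟩
      rw [h2, add_comm |α|]
      exact h1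

end Pool.Agent.SmH
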